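import Pool.Agent.Q161.ESV.Stm2

/-!
# Project ESV (helper161), job KDV: existence of the Kummer data
-/

set_option autoImplicit false

namespace Pool.Agent.Q256.ESV

open NumberField IsDedekindDomain Finset
open Pool.Agent.Q161.ESV

section base

variable {F : Type} [Field F]

/-- a square root for a quadratic character of a subgroup -/
lemma sqr (H : Subgroup (GF F)) (ε : GF F → ℤ) (hpm : ∀ σ ∈ H, ε σ = 1 ∨ ε σ = -1)
    (hm : ∀ σ ∈ H, ∀ τ ∈ H, ε (σ * τ) = ε σ * ε τ) (L : IntermediateField F (AlgebraicClosure F))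
    [FiniteDimensional F L] [PerfectField F] (hL : ∀ σ ∈ L.fixingSubgroup, σ ∈ H ∧ ε σ = 1) :
    ∃ x : AlgebraicClosure F, x ≠ 0 ∧ ∀ σ ∈ H, σ x = ε σ • x := by
  have h1 : ε 1 = 1 := (hL 1 (one_mem _)).2
  have hinv : ∀ σ ∈ H, ε σ⁻¹ = ε σ := by
    intro σ hσ
    have h2 := hm σ hσ σ⁻¹ (inv_mem hσ)
    rw [mul_inv_cancel, h1] at h2
    rcases hpm σ hσ with h | h <;> rcases hpm _ (inv_mem hσ) with h' | h' <;> rw [h, h'] at h2 ⊢
    · norm_num at h2
    · norm_num at h2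
  by_cases hA : ∀ σ ∈ H, ε σ = 1
  · exact ⟨1, one_ne_zero, fun σ h => by rw [hA σ h, map_one, one_smul]⟩
  push Not at hA
  obtain ⟨τ, hτ, hτ1⟩ := hA
  have hτ2 : ε τ = -1 := (hpm τ hτ).resolve_left hτ1
  let N : Subgroup (GF F) :=
    { carrier := {σ | σ ∈ H ∧ ε σ = 1}
      one_mem' := ⟨one_mem _, h1⟩
      mul_mem' := by
        rintro σ τ ⟨h1, h2⟩ ⟨h3, h4⟩
        exact ⟨mul_mem h1 h3, by rw [hm σ h1 τ h3, h2, h4, one_mul]⟩
      inv_mem' := by
        rintro σ ⟨h1, h2⟩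
        exact ⟨inv_mem h1, by rw [hinv σ h1, h2]⟩ }
  have hNmem : ∀ σ, σ ∈ N ↔ σ ∈ H ∧ ε σ = 1 := fun σ => Iff.rfl
  have hNo : IsOpen (N : Set (GF F)) := by
    refine Subgroup.isOpen_mono (H₁ := L.fixingSubgroup) (fun σ hσ => hL σ hσ) ?_
    exact IntermediateField.fixingSubgroup_isOpen L
  have hNc : IsClosed (N : Set (GF F)) := Subgroup.isClosed_of_isOpen N hNo
  obtain ⟨x, hx, hxτ⟩ : ∃ x : AlgebraicClosure F, (∀ σ ∈ N, σ x = x) ∧ τ x ≠ x := by
    by_contra hcon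
    push Not at hcon
    have h1 : τ ∈ (IntermediateField.fixedField N).fixingSubgroup := by
      rw [IntermediateField.mem_fixingSubgroup_iff]
      intro y hy
      rw [IntermediateField.mem_fixedField_iff] at hy
      exact hcon y hy
    have h2 := InfiniteGalois.fixingSubgroup_fixedField (k := F) (K := AlgebraicClosure F) ⟨N, hNc⟩
    have h3 : τ ∈ N := by
      have h4 : (IntermediateField.fixedField N).fixingSubgroup = N := h2
      rw [h4] at h1
      exact h1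
    exact hτ1 ((hNmem τ).1 h3).2
  refine ⟨x - τ x, sub_ne_zero.2 (Ne.symm hxτ), fun σ hσ => ?_⟩
  rcases hpm σ hσ with h | h
  · have h1 : σ ∈ N := (hNmem σ).2 ⟨hσ, h⟩
    have h2 : τ⁻¹ * σ * τ ∈ N := by
      refine (hNmem _).2 ⟨mul_mem (mul_mem (inv_mem hτ) hσ) hτ, ?_⟩
      rw [hm _ (mul_mem (inv_mem hτ) hσ) _ hτ, hm _ (inv_mem hτ) _ hσ, hinv τ hτ, h, hτ2]
      norm_num
    have h3 := hx _ h2
    have h4 : τ ((τ⁻¹ * σ * τ) x) = τ x := by rw [h3]
    have h5 : τ ((τ⁻¹ * σ * τ) x) = σ (τ x) := by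
      rw [← AlgEquiv.mul_apply, ← AlgEquiv.mul_apply]
      congr 1
      group
    rw [map_sub, hx _ h1, ← h5, h4, h, one_smul]
  · have h2 : τ⁻¹ * σ ∈ N := by
      refine (hNmem _).2 ⟨mul_mem (inv_mem hτ) hσ, ?_⟩
      rw [hm _ (inv_mem hτ) _ hσ, hinv τ hτ, h, hτ2]
      norm_num
    have h3 : σ * τ ∈ N := by
      refine (hNmem _).2 ⟨mul_mem hσ hτ, ?_⟩
      rw [hm _ hσ _ hτ, h, hτ2]
      norm_num
    have h4 : σ x = τ x := by
      have h5 := hx _ h2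
      have h6 : τ ((τ⁻¹ * σ) x) = τ x := by rw [h5]
      rw [← h6, ← AlgEquiv.mul_apply]
      congr 1
      group
    have h7 : σ (τ x) = x := by
      have := hx _ h3
      rwa [AlgEquiv.mul_apply] at this
    rw [map_sub, h4, h7, h, neg_smul, one_smul]
    ring

/-- the embeddings are conjugate -/
lemma trans_emb {L : Type} [Field L] [Algebra F L] [Algebra.IsAlgebraic F L] (e1 e : L →ₐ[F] AlgebraicClosure F) :
    ∃ σ : GF F, ∀ x, σ (e1 x) = e x := by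
  let _ : Algebra L (AlgebraicClosure F) := e1.toRingHom.toAlgebra
  have : IsScalarTower F L (AlgebraicClosure F) := IsScalarTower.of_algebraMap_eq (fun x => (e1.commutes x).symm)
  have : Algebra.IsAlgebraic L (AlgebraicClosure F) := Algebra.IsAlgebraic.tower_top (K := F) L
  obtain ⟨φ, hφ⟩ := IsAlgClosed.surjective_domRestrict_of_isAlgebraic (K := F) (L := L)
    (M := AlgebraicClosure F) (E := AlgebraicClosure F) e
  refine ⟨AlgEquiv.ofBijective φ (Algebra.IsAlgebraic.algHom_bijective φ), fun x => ?_⟩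
  have := DFunLike.congr_fun hφ x
  exact this

end base

section tw

variable {F K : Type} [Field F] [NumberField F] [Field K] [NumberField K] [Algebra F K]
  {V : Type} [AddCommGroup V] [DistribMulAction (K ≃ₐ[F] K) V]

lemma tw_apply (g : K ≃ₐ[F] K) (χ : V →+ ZMod 2) (v : V) : tw g χ v = χ (g • v) := rfl

lemma tw_one (χ : V →+ ZMod 2) : tw (1 : K ≃ₐ[F] K) χ = χ := by
  ext v
  rw [tw_apply, one_smul]

lemma tw_tw (g h : K ≃ₐ[F] K) (χ : V →+ ZMod 2) : tw g (tw h χ) = tw (h * g) χ := by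
  ext v
  rw [tw_apply, tw_apply, tw_apply, mul_smul]

lemma tw_inv_of {g : K ≃ₐ[F] K} {χ : V →+ ZMod 2} {χ' : V →+ ZMod 2} (h : tw g χ = χ') : tw g⁻¹ χ' = χ := by
  rw [← h, tw_tw, mul_inv_cancel, tw_one]

variable (e : K →ₐ[F] AlgebraicClosure F)

lemma Rs.mul {σ τ : GF F} {g h : K ≃ₐ[F] K} (h1 : Rs e σ g) (h2 : Rs e τ h) : Rs e (σ * τ) (g * h) := by
  intro x
  rw [AlgEquiv.mul_apply, h2 x, h1, AlgEquiv.mul_apply]

lemma Rs.inv {σ : GF F} {g : K ≃ₐ[F] K} (h1 : Rs e σ g) : Rs e σ⁻¹ g⁻¹ := by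
  intro x
  have h2 := h1 (g⁻¹ x)
  rw [← AlgEquiv.mul_apply, mul_inv_cancel, AlgEquiv.one_apply] at h2
  rw [← h2, ← AlgEquiv.mul_apply, inv_mul_cancel, AlgEquiv.one_apply]

lemma Rs.one : Rs e (1 : GF F) (1 : K ≃ₐ[F] K) := fun _ => rfl

lemma Rs.uniq {σ : GF F} {g h : K ≃ₐ[F] K} (h1 : Rs e σ g) (h2 : Rs e σ h) : g = h := by
  ext x
  exact e.injective ((h1 x).symm.trans (h2 x))

end tw

/-- JOB KDV -/
theorem kdv (hC : S_CHI) : S_KDV := by
  classical
  intro F K _ _ _ _ _ _ W _ _ V _ _ _ e i hSt hV2 D c hc hc2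
  obtain ⟨hcoc0, M, hM1, hM2⟩ := hc
  have hrs : ∀ σ : GF F, ∃ g : K ≃ₐ[F] K, Rs e σ g := (hC F).2.2 K e
  have hcoc : ∀ σ τ, c (σ * τ) = c σ + σ • c τ := by
    intro σ τ
    rw [hcoc0]
    congr 1
    have h1 : σ • c τ + σ • c τ = 0 := by rw [← smul_add, hc2, smul_zero]
    rcases ((hC F).1 D).1 σ with h | h
    · rw [h, one_smul]
    · rw [h, neg_smul, one_smul]
      exact neg_eq_of_add_eq_zero_left h1
  -- the values
  have hval : ∀ σ, ∃ v, i v = c σ := fun σ => (hSt.im _).1 (hc2 σ)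
  choose b hb using hval
  have hbm : ∀ σ τ (g : K ≃ₐ[F] K), Rs e σ g → b (σ * τ) = b σ + g • b τ := by
    intro σ τ g hg
    apply hSt.inj
    rw [map_add, hb, hb, hSt.act σ g hg, hb, hcoc]
  have hlift : ∀ g : K ≃ₐ[F] K, ∃ σ : GF F, Rs e σ g := by
    intro g
    obtain ⟨σ, hσ⟩ := trans_emb e (e.comp (g : K →ₐ[F] K))
    exact ⟨σ, hσ⟩
  have hz2 : ∀ z : ZMod 2, z = 0 ∨ z = 1 := by decide
  -- the square root
  have key : ∀ χ : V →+ ZMod 2, ∃ (γ : AlgebraicClosure F) (δ : K), γ ≠ 0 ∧ e δ = γ ^ 2 ∧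
      ∀ (σ : GF F) (g : K ≃ₐ[F] K), Rs e σ g → tw g χ = χ →
        σ γ = if χ (b σ) = 1 then -γ else γ := by
    intro χ
    let H : Subgroup (GF F) :=
      { carrier := {σ | ∃ g : K ≃ₐ[F] K, Rs e σ g ∧ tw g χ = χ}
        one_mem' := ⟨1, Rs.one e, tw_one χ⟩
        mul_mem' := by
          rintro σ τ ⟨g, h1, h2⟩ ⟨h, h3, h4⟩
          exact ⟨g * h, Rs.mul e h1 h3, by rw [← tw_tw, h2, h4]⟩
        inv_mem' := by
          rintro σ ⟨g, h1, h2⟩
          exact ⟨g⁻¹, Rs.inv e h1, tw_inv_of h2⟩ }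
    have hfd : FiniteDimensional F e.fieldRange :=
      LinearEquiv.finiteDimensional (AlgEquiv.ofInjectiveField e).toLinearEquiv
    have hfd2 : FiniteDimensional F (e.fieldRange ⊔ M : IntermediateField F (AlgebraicClosure F)) :=
      IntermediateField.finiteDimensional_sup _ _
    have hres : ∀ σ ∈ e.fieldRange.fixingSubgroup, Rs e σ 1 := by
      intro σ hσ x
      rw [IntermediateField.mem_fixingSubgroup_iff] at hσ
      exact hσ (e x) ⟨x, rfl⟩
    obtain ⟨γ, hγ, hγ2⟩ := sqr H (fun σ => if χ (b σ) = 1 then -1 else 1)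
      (by
        intro σ _
        by_cases h : χ (b σ) = 1
        · exact Or.inr (if_pos h)
        · exact Or.inl (if_neg h))
      (by
        rintro σ ⟨g, h1, h2⟩ τ ⟨h, h3, h4⟩
        show (if χ (b (σ * τ)) = 1 then (-1 : ℤ) else 1) =
          (if χ (b σ) = 1 then (-1 : ℤ) else 1) * (if χ (b τ) = 1 then (-1 : ℤ) else 1)
        have h5 : χ (b (σ * τ)) = χ (b σ) + χ (b τ) := by
          rw [hbm σ τ g h1, map_add, ← tw_apply, h2]
        rw [h5]
        rcases hz2 (χ (b σ)) with h6 | h6 <;> rcases hz2 (χ (b τ)) with h7 | h7 <;> rw [h6, h7] <;> decide)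
      (e.fieldRange ⊔ M)
      (by
        intro σ hσ
        have h1 : σ ∈ e.fieldRange.fixingSubgroup := IntermediateField.fixingSubgroup_antitone le_sup_left hσ
        have h2 : σ ∈ M.fixingSubgroup := IntermediateField.fixingSubgroup_antitone le_sup_right hσ
        refine ⟨⟨1, hres σ h1, tw_one χ⟩, ?_⟩
        have h3 : b σ = 0 := by
          apply hSt.inj
          rw [hb, hM2 σ h2, map_zero]
        show (if χ (b σ) = 1 then (-1 : ℤ) else 1) = 1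
        rw [h3, map_zero, if_neg (by decide)])
    have hγ3 : ∀ σ ∈ H, σ γ = if χ (b σ) = 1 then -γ else γ := by
      intro σ hσ
      rw [hγ2 σ hσ]
      by_cases h : χ (b σ) = 1
      · simp only [if_pos h, neg_smul, one_smul]
      · simp only [if_neg h, one_smul]
    obtain ⟨δ, hδ⟩ : ∃ δ : K, e δ = γ ^ 2 := by
      have h1 : γ ^ 2 ∈ IntermediateField.fixedField e.fieldRange.fixingSubgroup := by
        rw [IntermediateField.mem_fixedField_iff]
        intro σ hσ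
        rw [map_pow, hγ3 σ ⟨1, hres σ hσ, tw_one χ⟩]
        split_ifs <;> ring
      rw [InfiniteGalois.fixedField_fixingSubgroup] at h1
      exact h1
    exact ⟨γ, δ, hγ, hδ, fun σ g h1 h2 => hγ3 σ ⟨g, h1, h2⟩⟩
  choose γ δ hγ hδ hgal using key
  have hδfix : ∀ (χ : V →+ ZMod 2) (g : K ≃ₐ[F] K), tw g χ = χ → g (δ χ) = δ χ := by
    intro χ g hg
    obtain ⟨σ, hσ⟩ := hlift g
    apply e.injective
    show e (g (δ χ)) = e (δ χ)
    rw [← hσ, hδ, map_pow, hgal χ σ g hσ hg]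
    split_ifs <;> ring
  -- orbits
  let s : Setoid (V →+ ZMod 2) :=
    { r := fun χ χ' => ∃ g : K ≃ₐ[F] K, tw g χ = χ'
      iseqv :=
        { refl := fun χ => ⟨1, tw_one χ⟩
          symm := by
            rintro χ χ' ⟨g, hg⟩
            exact ⟨g⁻¹, tw_inv_of hg⟩
          trans := by
            rintro χ χ' χ'' ⟨g, hg⟩ ⟨h, hh⟩
            exact ⟨g * h, by rw [← tw_tw, hg, hh]⟩ } }
  let r : (V →+ ZMod 2) → (V →+ ZMod 2) := fun χ => (Quotient.mk s χ).out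
  have hr1 : ∀ χ, ∃ g : K ≃ₐ[F] K, tw g χ = r χ := by
    intro χ
    have h1 : s (r χ) χ := Quotient.mk_out χ
    exact s.symm h1
  have hr2 : ∀ (g : K ≃ₐ[F] K) χ, r (tw g χ) = r χ := by
    intro g χ
    have h1 : Quotient.mk s (tw g χ) = Quotient.mk s χ := Quotient.sound (s.symm ⟨g, rfl⟩)
    show (Quotient.mk s (tw g χ)).out = (Quotient.mk s χ).out
    rw [h1]
  choose p hp using hr1
  have hpu : ∀ (χ : V →+ ZMod 2) (g : K ≃ₐ[F] K), tw g χ = r χ → g (δ (r χ)) = (p χ) (δ (r χ)) := by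
    intro χ g hg
    have h1 : tw ((p χ)⁻¹ * g) (r χ) = r χ := by
      rw [← tw_tw, tw_inv_of (hp χ), hg]
    have h2 := hδfix (r χ) _ h1
    rw [AlgEquiv.mul_apply] at h2
    calc g (δ (r χ)) = (p χ) ((p χ)⁻¹ (g (δ (r χ)))) := by
          rw [← AlgEquiv.mul_apply, mul_inv_cancel, AlgEquiv.one_apply]
      _ = (p χ) (δ (r χ)) := by rw [h2]
  have hδne : ∀ χ, δ χ ≠ 0 := by
    intro χ h0
    have h1 := hδ χ
    rw [h0, map_zero] at h1
    exact hγ χ (pow_eq_zero_iff two_ne_zero |>.1 h1.symm)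
  refine ⟨fun χ => (p χ) (δ (r χ)), ⟨fun χ => ?_, fun g χ => ?_, ?_⟩⟩
  · show (p χ) (δ (r χ)) ≠ 0
    rw [Ne, map_eq_zero_iff _ (p χ).injective]
    exact hδne _
  · show g ((p (tw g χ)) (δ (r (tw g χ)))) = (p χ) (δ (r χ))
    rw [hr2, ← AlgEquiv.mul_apply]
    apply hpu
    rw [← tw_tw, hp, hr2]
  · intro χ σ g hσ hg v hv s hs
    change s ^ 2 = e ((p χ) (δ (r χ))) at hs
    obtain ⟨ρ, hρ⟩ := hlift (p χ)
    have hvb : v = b σ := hSt.inj (hv.trans (hb σ).symm)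
    subst hvb
    -- the conjugate
    have hτ1 : Rs e (ρ⁻¹ * σ * ρ) ((p χ)⁻¹ * g * (p χ)) := Rs.mul e (Rs.mul e (Rs.inv e hρ) hσ) hρ
    have hτ2 : tw ((p χ)⁻¹ * g * (p χ)) (r χ) = r χ := by
      rw [← tw_tw, ← tw_tw, tw_inv_of (hp χ), hg, hp]
    have h1 := hgal (r χ) _ _ hτ1 hτ2
    have h2 : χ (b σ) = r χ (b (ρ⁻¹ * σ * ρ)) := by
      have h3 : b (ρ * (ρ⁻¹ * σ * ρ)) = b (σ * ρ) := by
        congr 1
        group
      rw [hbm _ _ _ hρ, hbm _ _ _ hσ] at h3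
      have h4 := congrArg χ h3
      rw [map_add, map_add, ← tw_apply, ← tw_apply, hp, hg, add_comm (χ (b σ))] at h4
      exact (add_left_cancel h4).symm
    have h5 : s ^ 2 = (ρ (γ (r χ))) ^ 2 := by
      rw [hs, ← hρ, hδ, map_pow]
    have h6 : σ (ρ (γ (r χ))) = if χ (b σ) = 1 then -(ρ (γ (r χ))) else ρ (γ (r χ)) := by
      have h7 : σ (ρ (γ (r χ))) = ρ ((ρ⁻¹ * σ * ρ) (γ (r χ))) := by
        rw [← AlgEquiv.mul_apply, ← AlgEquiv.mul_apply]
        congr 1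
        group
      rw [h7, h1, h2]
      split_ifs
      · rw [map_neg]
      · rfl
    rcases sq_eq_sq_iff_eq_or_eq_neg.1 h5 with h8 | h8
    · rw [h8, h6]
    · rw [h8, map_neg, h6]
      split_ifs <;> rfl

end Pool.Agent.Q256.ESV
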